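import Mathlib
import Pool.Agent.Q216.IGP.Global2
import Pool.Agent.Q216.IGP.Fields

/-!
# The inverse Galois problem is equivalent to the one with restricted decomposition groups

For every finite group `G` there is a finite group `Γ` with an epimorphism onto `G` (with abelian
kernel) such that, over every number field `K`, a Galois extension with group `Γ` contains a Galois
extension `L` of `K` with group `G` with the following property.  For every prime `Q` of `L` and
every prime number `r` different from the residue characteristic, the Sylow `r`-subgroups of the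
decomposition group of `Q` are cyclic; if `Q` is tamely ramified, all Sylow subgroups of the
decomposition group are cyclic.  Hence the inverse Galois problem over `K` is equivalent to the one
with this property.
-/

set_option autoImplicit false

namespace Pool.Agent.Results.MP_dadaab_nt.CyclicSylow

open NumberField IntermediateField Pool.Agent.Q216.IGP
open scoped Pointwise

/-- `L` is Galois over `K` with a group isomorphic to `G`. -/
def HasGroup (K L G : Type*) [Field K] [Field L] [Algebra K L] [Group G] : Prop :=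
  IsGalois K L ∧ Nonempty (Gal(L/K) ≃* G)

/-- The decomposition group of `Q`: the automorphisms of `L` over `K` which map `Q` onto itself. -/
def decomp (K L : Type*) [Field K] [Field L] [Algebra K L] (Q : Ideal (𝓞 L)) :
    Subgroup Gal(L/K) :=
  MulAction.stabilizer Gal(L/K) Q

/-- For every nonzero prime `Q` of `L` and every prime number `r` which is not in `Q`, the Sylow
`r`-subgroups of the decomposition group of `Q` over `K` are cyclic. -/
def CyclicPrimeTo (K L : Type*) [Field K] [Field L] [Algebra K L] : Prop :=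
  ∀ Q : Ideal (𝓞 L), Q.IsPrime → Q ≠ ⊥ → ∀ r : ℕ, r.Prime → (r : 𝓞 L) ∉ Q →
    ∀ R : Sylow r (decomp K L Q), IsCyclic R

/-- For every nonzero prime `Q` of `L` which is tamely ramified over `K` (its ramification index is
not in `Q`), all Sylow subgroups of the decomposition group of `Q` over `K` are cyclic. -/
def ZGroupsAtTame (K L : Type*) [Field K] [Field L] [Algebra K L] : Prop :=
  ∀ Q : Ideal (𝓞 L), Q.IsPrime → Q ≠ ⊥ → ((Q.ramificationIdx (𝓞 K) : ℕ) : 𝓞 L) ∉ Q →
    IsZGroup (decomp K L Q)

/-- The finite group `Γ` with its homomorphism `π` to `G` forces these conditions: whenever a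
Galois extension `N/K` of number fields has group `Γ`, the fixed field `L` of the kernel of `π` is
Galois over `K` with group `G` and satisfies both. -/
def Forces.{u, v} {Γ G : Type u} [Group Γ] [Group G] (π : Γ →* G) : Prop :=
  ∀ (K N : Type v) [Field K] [NumberField K] [Field N] [NumberField N] [Algebra K N]
    [IsGalois K N] (e : Gal(N/K) ≃* Γ) (L : IntermediateField K N),
    L = fixedField (π.comp e.toMonoidHom).ker →
    HasGroup K L G ∧ CyclicPrimeTo K L ∧ ZGroupsAtTame K L

/-- The order of `G` is divisible only by primes in `T`. -/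
def IsTGroup (T : Set ℕ) (G : Type) [Group G] : Prop := ∀ r : ℕ, r.Prime → r ∣ Nat.card G → r ∈ T

/-- A Sylow `p`-subgroup which meets the kernel of a homomorphism to a cyclic group trivially is
cyclic. -/
theorem isCyclic_sylow_of_not_dvd {D C : Type*} [Group D] [Group C] [IsCyclic C]
    (f : D →* C) {p : ℕ} (hp : p.Prime) (h : ¬ p ∣ Nat.card f.ker) (P : Sylow p D) :
    IsCyclic P := by
  have hpf : Fact p.Prime := ⟨hp⟩
  have hinj : Function.Injective (f.comp (P : Subgroup D).subtype) := by
    rw [injective_iff_map_eq_one]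
    intro x hx
    obtain ⟨n, hn⟩ := P.isPGroup' x
    have h1 : orderOf (x : D) ∣ p ^ n := by
      apply orderOf_dvd_of_pow_eq_one
      have := congrArg Subtype.val hn
      simpa using this
    have h2 : orderOf (x : D) ∣ Nat.card f.ker := by
      have hx' : (x : D) ∈ f.ker := hx
      have h3 := orderOf_dvd_natCard (⟨(x : D), hx'⟩ : f.ker)
      rwa [Subgroup.orderOf_mk] at h3
    have h4 : orderOf (x : D) = 1 := by
      obtain ⟨i, _, hi⟩ := (Nat.dvd_prime_pow hp).mp h1
      rcases Nat.eq_zero_or_pos i with h0 | h0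
      · rw [hi, h0, pow_zero]
      · exact absurd ((dvd_pow_self p h0.ne').trans (hi ▸ h2)) h
    exact Subtype.ext (orderOf_eq_one_iff.mp h4)
  exact isCyclic_of_injective _ hinj

theorem zGroupsAtTame {K L : Type*} [Field K] [NumberField K] [Field L] [NumberField L]
    [Algebra K L] [IsGalois K L] (h : CyclicPrimeTo K L) : ZGroupsAtTame K L := by
  intro Q hQp hQ hte
  refine ⟨fun p hp P => ?_⟩
  by_cases hpQ : (p : 𝓞 L) ∈ Q
  · set q : Ideal (𝓞 K) := Q.under (𝓞 K) with hq
    have hP : q ≠ ⊥ := fun h0 => hQ (Ideal.eq_bot_of_comap_eq_bot h0)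
    have hqp : q.IsPrime := inferInstance
    have hqm : q.IsMaximal := hqp.isMaximal hP
    have hQm : Q.IsMaximal := hQp.isMaximal hQ
    have hfin : Finite (𝓞 K ⧸ q) := Ring.HasFiniteQuotients.finiteQuotient hP
    have hfinT : Finite (𝓞 L ⧸ Q) := Ring.HasFiniteQuotients.finiteQuotient hQ
    let _ : Field (𝓞 K ⧸ q) := Ideal.Quotient.field q
    let _ : Field (𝓞 L ⧸ Q) := Ideal.Quotient.field Q
    have hcycAut : IsCyclic Gal((𝓞 L ⧸ Q)/(𝓞 K ⧸ q)) := inferInstance
    let f : decomp K L Q →* ((𝓞 L ⧸ Q) ≃ₐ[𝓞 K ⧸ q] (𝓞 L ⧸ Q)) :=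
      Ideal.Quotient.stabilizerHom Q q Gal(L/K)
    have hcycAut' : IsCyclic ((𝓞 L ⧸ Q) ≃ₐ[𝓞 K ⧸ q] (𝓞 L ⧸ Q)) := hcycAut
    refine isCyclic_sylow_of_not_dvd f hp ?_ P
    have h1 : f.ker.map (decomp K L Q).subtype = Q.inertia Gal(L/K) :=
      Ideal.Quotient.map_ker_stabilizer_subtype Q q Gal(L/K)
    have h2 : Nat.card f.ker = Q.ramificationIdx (𝓞 K) := by
      rw [← Ideal.ramificationIdxIn_eq_ramificationIdx (Q.under (𝓞 K)) Q Gal(L/K),
        ← Ideal.card_inertia_eq_ramificationIdxIn (G := Gal(L/K)) (Q.under (𝓞 K)) Q, ← h1]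
      exact Nat.card_congr
        (Subgroup.equivMapOfInjective _ _ (Subgroup.subtype_injective _)).toEquiv
    rw [h2]
    rintro ⟨c, hc⟩
    apply hte
    rw [hc, Nat.cast_mul]
    exact Q.mul_mem_right _ hpQ
  · exact h Q hQp hQ p hp hpQ P

/-- The cover theorem. -/
theorem cover.{u, v} (G : Type u) [Group G] [Finite G] :
    ∃ (Γ : Type u) (_ : Group Γ) (_ : Finite Γ) (π : Γ →* G), Function.Surjective π ∧
      (∀ a b : Γ, π a = 1 → π b = 1 → a * b = b * a) ∧
      (∀ r : ℕ, r.Prime → r ∣ Nat.card Γ → r ∣ Nat.card G) ∧ Forces.{u, v} π := by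
  classical
  have hfin : Fintype G := Fintype.ofFinite G
  have hne : NeZero (Nat.card G ^ 2) := ⟨pow_ne_zero _ Nat.card_pos.ne'⟩
  refine ⟨Cov G (Nat.card G ^ 2), inferInstance, inferInstance, Cov.proj,
    Cov.proj_surjective, fun a b ha hb => Cov.commute_of_proj ha hb,
    fun r hr h => Cov.dvd_card hr h, ?_⟩
  intro K N _ _ _ _ _ _ e L hL
  subst hL
  set ρ : Gal(N/K) →* G := (Cov.proj : Cov G (Nat.card G ^ 2) →* G).comp e.toMonoidHom with hρ
  have hsurj : Function.Surjective ρ := by
    rw [hρ]
    exact Cov.proj_surjective.comp e.surjective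
  have hker : (AlgEquiv.restrictNormalHom (fixedField ρ.ker) : Gal(N/K) →* _).ker = ρ.ker := by
    rw [IntermediateField.restrictNormalHom_ker, IntermediateField.fixingSubgroup_fixedField]
  have key : CyclicPrimeTo K (fixedField ρ.ker) := by
    intro Q hQp hQ r hr hrQ R
    obtain ⟨a, b, s, h1, h2, ⟨h3⟩⟩ :=
      exists_metacyclic_numberField (K := K) (N := N) (fixedField ρ.ker) Q hQ hr hrQ R
    have h4 : e b * e a * (e b)⁻¹ = (e a) ^ s := by
      rw [← map_pow, ← h1, map_mul, map_mul, map_inv]
    have h5 : IsPGroup r (Subgroup.closure ({e a, e b} : Set (Cov G (Nat.card G ^ 2)))) := by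
      have h6 : Subgroup.closure ({e a, e b} : Set (Cov G (Nat.card G ^ 2))) =
          (Subgroup.closure ({a, b} : Set Gal(N/K))).map e.toMonoidHom := by
        rw [MonoidHom.map_closure, Set.image_pair]
        rfl
      rw [h6]
      exact h2.map _
    have h7 : IsCyclic (Subgroup.closure ({ρ a, ρ b} : Set G)) :=
      Cov.isCyclic_closure_of_conj rfl (e a) (e b) s h4 hr h5
    -- transfer to the Galois group of the fixed field
    let ψ : G →* Gal((fixedField ρ.ker)/K) :=
      (MonoidHom.liftOfSurjective ρ hsurj) ⟨AlgEquiv.restrictNormalHom (fixedField ρ.ker), hker.ge⟩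
    have hψ : ∀ x, ψ (ρ x) = AlgEquiv.restrictNormalHom (fixedField ρ.ker) x := fun x =>
      MonoidHom.liftOfRightInverse_comp_apply _ _ _ _ x
    have h8 : Subgroup.closure ({AlgEquiv.restrictNormalHom (fixedField ρ.ker) a,
        AlgEquiv.restrictNormalHom (fixedField ρ.ker) b} : Set Gal((fixedField ρ.ker)/K)) =
        (Subgroup.closure ({ρ a, ρ b} : Set G)).map ψ := by
      rw [MonoidHom.map_closure, Set.image_pair, hψ, hψ]
    have h9 : IsCyclic (Subgroup.closure ({AlgEquiv.restrictNormalHom (fixedField ρ.ker) a,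
        AlgEquiv.restrictNormalHom (fixedField ρ.ker) b} : Set Gal((fixedField ρ.ker)/K))) := by
      rw [h8]
      exact isCyclic_of_surjective (ψ.subgroupMap _) (ψ.subgroupMap_surjective _)
    exact isCyclic_of_surjective h3.symm h3.symm.surjective
  refine ⟨⟨inferInstance, ⟨?_⟩⟩, key, zGroupsAtTame key⟩
  exact (IsGalois.normalAutEquivQuotient ρ.ker).symm.trans
    (QuotientGroup.quotientKerEquivOfSurjective ρ hsurj)

theorem result.{u, v} :
    (∀ (G : Type u) [Group G] [Finite G],
      ∃ (Γ : Type u) (_ : Group Γ) (_ : Finite Γ) (π : Γ →* G), Function.Surjective π ∧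
        (∀ a b : Γ, π a = 1 → π b = 1 → a * b = b * a) ∧
        (∀ r : ℕ, r.Prime → r ∣ Nat.card Γ → r ∣ Nat.card G) ∧ Forces.{u, v} π) ∧
    (∀ (K : Type v) [Field K] [NumberField K] (T : Set ℕ),
      (∀ (G : Type) [Group G] [Finite G], IsTGroup T G →
        ∃ (L : Type v) (_ : Field L) (_ : Algebra K L), HasGroup K L G) ↔
      (∀ (G : Type) [Group G] [Finite G], IsTGroup T G →
        ∃ (L : Type v) (_ : Field L) (_ : NumberField L) (_ : Algebra K L),
          HasGroup K L G ∧ CyclicPrimeTo K L ∧ ZGroupsAtTame K L)) := by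
  refine ⟨fun G _ _ => cover G, fun K _ _ T => ⟨fun h => ?_, fun h => ?_⟩⟩
  · intro G _ _ hG
    classical
    obtain ⟨Γ, _, _, π, hπ, _, hp, hΓ⟩ := cover.{0, v} G
    obtain ⟨N, _, _, hN, ⟨e⟩⟩ := h Γ fun r hr hrd => hG r hr (hp r hr hrd)
    have hfinGal : Finite Gal(N/K) := Finite.of_equiv Γ e.symm.toEquiv
    have hfd : FiniteDimensional K N := IsGaloisGroup.finiteDimensional Gal(N/K) K N
    have hnf : NumberField N := NumberField.of_module_finite K N
    obtain ⟨h1, h3, h4⟩ := hΓ K N e _ rfl
    exact ⟨fixedField (π.comp e.toMonoidHom).ker, inferInstance, inferInstance, inferInstance,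
      h1, h3, h4⟩
  · intro G _ _ hG
    obtain ⟨L, i1, _, i3, h1, _⟩ := h G hG
    exact ⟨L, i1, i3, h1⟩

end Pool.Agent.Results.MP_dadaab_nt.CyclicSylow
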