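import Mathlib
import Pool.Agent.Q216.IGP.Global

/-!
# The inverse Galois problem is equivalent to the one with prescribed local conditions

For every finite group `G` and every `k` there is a finite group `Γ` with an epimorphism onto `G`
(with abelian kernel) such that, over every number field `K`, a Galois extension with group `Γ`
contains a Galois extension `L` of `K` with group `G` which is unramified at all infinite places
and in which every prime `r` dividing a ramification index `e(Q/P)`, other than the residue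
characteristic, satisfies `r ^ k ∣ N(P) ^ |G| - 1`.  Hence the inverse Galois problem over `K` is
equivalent to the one with extensions unramified at infinity, in which for the primes over a given
finite set `S` the ramification index is a power of the residue characteristic.
-/

set_option autoImplicit false

namespace Pool.Agent.Results.MP_dadaab_nt.ForcedLocalConditions

open NumberField IntermediateField Pool.Agent.Q216.IGP

/-- The order of the residue field of `K` at the prime of `K` under `Q`. -/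
noncomputable def normBelow (K L : Type*) [Field K] [Field L] [Algebra K L] (Q : Ideal (𝓞 L)) : ℕ :=
  Nat.card (𝓞 K ⧸ Q.under (𝓞 K))

/-- The ramification index of `Q` over `K`. -/
noncomputable def ramIdx (K L : Type*) [Field K] [Field L] [Algebra K L] (Q : Ideal (𝓞 L)) : ℕ :=
  Q.ramificationIdx (𝓞 K)

/-- For every nonzero prime `Q` of `L` over the prime `P` of `K` and every prime number `r` which is
not in `Q` and divides the ramification index of `Q` over `K`, the power `r ^ k` divides
`N(P) ^ n - 1`. -/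
def TameCongruences (K L : Type*) [Field K] [Field L] [Algebra K L] (n k : ℕ) : Prop :=
  ∀ Q : Ideal (𝓞 L), Q.IsPrime → Q ≠ ⊥ → ∀ r : ℕ, r.Prime → (r : 𝓞 L) ∉ Q →
    r ∣ ramIdx K L Q → r ^ k ∣ normBelow K L Q ^ n - 1

/-- For every nonzero prime `Q` of `L` over an element of `S`, each prime number dividing the
ramification index of `Q` over `K` lies in `Q`, and `Q` is unramified over `K` if `n` is not
in `Q`. -/
def GoodAt (K L : Type*) [Field K] [Field L] [Algebra K L] (n : ℕ) (S : Set (Ideal (𝓞 K))) :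
    Prop :=
  ∀ Q : Ideal (𝓞 L), Q.IsPrime → Q ≠ ⊥ → Q.under (𝓞 K) ∈ S →
    (∀ r : ℕ, r.Prime → r ∣ ramIdx K L Q → (r : 𝓞 L) ∈ Q) ∧
    ((n : 𝓞 L) ∉ Q → ramIdx K L Q = 1)

/-- `L` is Galois over `K` with a group isomorphic to `G`. -/
def HasGroup (K L G : Type*) [Field K] [Field L] [Algebra K L] [Group G] : Prop :=
  IsGalois K L ∧ Nonempty (Gal(L/K) ≃* G)

/-- The finite group `Γ` with its homomorphism `π` to `G` forces the local conditions: whenever a
Galois extension `N/K` of number fields has group `Γ`, the fixed field `L` of the kernel of `π` is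
Galois over `K` with group `G`, unramified at all infinite places, and satisfies the
congruences. -/
def Forces.{u, v} {Γ G : Type u} [Group Γ] [Group G] (π : Γ →* G) (k : ℕ) : Prop :=
  ∀ (K N : Type v) [Field K] [NumberField K] [Field N] [NumberField N] [Algebra K N]
    [IsGalois K N] (e : Gal(N/K) ≃* Γ) (L : IntermediateField K N),
    L = fixedField (π.comp e.toMonoidHom).ker →
    HasGroup K L G ∧ IsUnramifiedAtInfinitePlaces K L ∧ TameCongruences K L (Nat.card G) k

/-- The cover theorem. -/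
theorem cover.{u, v} (G : Type u) [Group G] [Finite G] (k : ℕ) :
    ∃ (Γ : Type u) (_ : Group Γ) (_ : Finite Γ) (π : Γ →* G), Function.Surjective π ∧
      (∀ a b : Γ, π a = 1 → π b = 1 → a * b = b * a) ∧ Forces.{u, v} π k := by
  classical
  have hfin : Fintype G := Fintype.ofFinite G
  have hne : NeZero (Nat.card G ^ (k + 1)) := ⟨pow_ne_zero _ Nat.card_pos.ne'⟩
  have hm : ∀ r : ℕ, r.Prime → r ∣ Nat.card G → r ∣ Nat.card G ^ (k + 1) := fun r _ h =>
    h.trans (dvd_pow_self _ (Nat.succ_ne_zero k))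
  refine ⟨Cov G (Nat.card G ^ (k + 1)), inferInstance, inferInstance, Cov.proj,
    Cov.proj_surjective, fun a b ha hb => Cov.commute_of_proj ha hb, ?_⟩
  intro K N _ _ _ _ _ _ e L hL
  subst hL
  set ρ : Gal(N/K) →* G := (Cov.proj : Cov G (Nat.card G ^ (k + 1)) →* G).comp e.toMonoidHom with hρ
  have hsurj : Function.Surjective ρ := by
    rw [hρ]
    exact Cov.proj_surjective.comp e.surjective
  refine ⟨⟨inferInstance, ⟨?_⟩⟩, ?_, ?_⟩
  · exact (IsGalois.normalAutEquivQuotient ρ.ker).symm.trans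
      (QuotientGroup.quotientKerEquivOfSurjective ρ hsurj)
  · refine isUnramifiedAtInfinitePlaces_fixedField ρ.ker ?_
    intro τ hτ
    rw [MonoidHom.mem_ker]
    have h1 : (e τ) ^ 2 = 1 := by rw [← map_pow, hτ, map_one]
    exact Cov.g_eq_one_of_sq hm (e τ) h1
  · intro Q hQp hQ r hr hrQ hrd
    obtain ⟨σ, x, h1, h2⟩ := exists_conj_fixedField ρ Q hQ hr hrQ hrd
    have h3 : e x * e σ * (e x)⁻¹ = (e σ) ^ Nat.card (𝓞 K ⧸ Q.under (𝓞 K)) := by
      rw [← map_pow, ← h1, map_mul, map_mul, map_inv]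
    have h4 : r ∣ orderOf (e σ).g := h2
    have h5 : r ∣ Nat.card G := h4.trans (orderOf_dvd_natCard _)
    exact (pow_dvd_pow r (Nat.le_succ k)).trans
      (Cov.dvd_of_conj_eq_pow (e σ) (e x) _ h3 hr h4 (Nat.succ_ne_zero k)
        (pow_dvd_pow_of_dvd h5 (k + 1)))

theorem result.{u, v} :
    (∀ (G : Type u) [Group G] [Finite G] (k : ℕ),
      ∃ (Γ : Type u) (_ : Group Γ) (_ : Finite Γ) (π : Γ →* G), Function.Surjective π ∧
        (∀ a b : Γ, π a = 1 → π b = 1 → a * b = b * a) ∧ Forces.{u, v} π k) ∧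
    (∀ (K : Type v) [Field K] [NumberField K],
      (∀ (G : Type) [Group G] [Finite G],
        ∃ (L : Type v) (_ : Field L) (_ : Algebra K L), HasGroup K L G) ↔
      (∀ (G : Type) [Group G] [Finite G] (S : Set (Ideal (𝓞 K))), S.Finite →
        ∃ (L : Type v) (_ : Field L) (_ : NumberField L) (_ : Algebra K L),
          HasGroup K L G ∧ IsUnramifiedAtInfinitePlaces K L ∧ GoodAt K L (Nat.card G) S)) := by
  refine ⟨fun G _ _ k => cover G k, fun K _ _ => ⟨fun h => ?_, fun h => ?_⟩⟩
  · intro G _ _ S hS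
    classical
    -- choice of `k`
    obtain ⟨B, hB⟩ : ∃ B : ℕ, ∀ P ∈ S, Nat.card (𝓞 K ⧸ P) ^ Nat.card G < B := by
      obtain ⟨B, hB⟩ := (hS.image (fun P => Nat.card (𝓞 K ⧸ P) ^ Nat.card G)).bddAbove
      exact ⟨B + 1, fun P hP => Nat.lt_succ_of_le (hB ⟨P, hP, rfl⟩)⟩
    obtain ⟨Γ, _, _, π, hπ, _, hΓ⟩ := cover.{0, v} G B
    obtain ⟨N, _, _, hN, ⟨e⟩⟩ := h Γ
    have hfinGal : Finite Gal(N/K) := Finite.of_equiv Γ e.symm.toEquiv
    have hfd : FiniteDimensional K N := IsGaloisGroup.finiteDimensional Gal(N/K) K N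
    have hnf : NumberField N := NumberField.of_module_finite K N
    obtain ⟨⟨h1, h2⟩, h3, h4⟩ := hΓ K N e _ rfl
    refine ⟨fixedField (π.comp e.toMonoidHom).ker, inferInstance, inferInstance, inferInstance,
      ⟨h1, h2⟩, h3, ?_⟩
    intro Q hQp hQ hQS
    have key : ∀ r : ℕ, r.Prime → r ∣ Q.ramificationIdx (𝓞 K) →
        (r : 𝓞 (fixedField (π.comp e.toMonoidHom).ker)) ∈ Q := by
      intro r hr hrd
      by_contra hrQ
      have h5 : r ^ B ∣ Nat.card (𝓞 K ⧸ Q.under (𝓞 K)) ^ Nat.card G - 1 :=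
        h4 Q hQp hQ r hr hrQ hrd
      have h6 := hB _ hQS
      have hP : Q.under (𝓞 K) ≠ ⊥ := fun h0 => hQ (Ideal.eq_bot_of_comap_eq_bot h0)
      have hPp : (Q.under (𝓞 K)).IsPrime := inferInstance
      have h7 : Finite (𝓞 K ⧸ Q.under (𝓞 K)) := Ring.HasFiniteQuotients.finiteQuotient hP
      have h8 : 1 < Nat.card (𝓞 K ⧸ Q.under (𝓞 K)) := Finite.one_lt_card
      have h9 : 1 < Nat.card (𝓞 K ⧸ Q.under (𝓞 K)) ^ Nat.card G :=
        Nat.one_lt_pow Nat.card_pos.ne' h8
      have h10 := Nat.le_of_dvd (by omega) h5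
      have h11 : B < 2 ^ B := Nat.lt_two_pow_self
      have h12 : 2 ^ B ≤ r ^ B := Nat.pow_le_pow_left hr.two_le B
      omega
    refine ⟨key, fun hG => ?_⟩
    by_contra hne
    obtain ⟨r, hr, hrd⟩ := Nat.exists_prime_and_dvd hne
    obtain ⟨e2⟩ := h2
    have h5 : r ∣ Nat.card G := by
      rw [← Nat.card_congr e2.toEquiv]
      exact hrd.trans (ramificationIdx_dvd_card Q hQ)
    obtain ⟨c, hc⟩ := h5
    apply hG
    rw [hc, Nat.cast_mul]
    exact Q.mul_mem_right _ (key r hr hrd)
  · intro G _ _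
    obtain ⟨L, i1, _, i3, h1, _⟩ := h G ∅ Set.finite_empty
    exact ⟨L, i1, i3, h1⟩

end Pool.Agent.Results.MP_dadaab_nt.ForcedLocalConditions
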