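import Mathlib
import Pool.Agent.Q7.NR.Fin

/-!
# Solvable normal subgroups with abelian Sylow subgroups do not matter for realizability

Let `X` be a finite group and `N` a normal subgroup. Put `N_0 = N` and let `N_(i+1)` be the
nilpotent residual of `N_i` (the smallest normal subgroup with nilpotent quotient, that is, the
intersection of the lower central series of `N_i`). Suppose that some `N_k` is trivial and that
`N_i / N_(i+1)` is abelian for all `i ≥ 1`. This holds, for example,

* if `N` is solvable and all its Sylow subgroups are abelian (then `N_i` is the derived series, and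
  `N_1 = [N, N]`),
* if the nilpotent residual `N_1` of `N` is abelian, in particular if `N` is metabelian.

Theorem: let `K` be a Hilbertian field, for instance `ℚ`, and `L/K` a finite Galois extension with
group `X / N_1`. Then `L` is contained in a finite Galois extension `F` of `K` with group `X`, so
that restriction to `L` becomes the projection `X → X / N_1`. In particular `X` is realizable over
`K` if and only if `X / N_1` is. For every field `K` there is such an `F` over `K(t)` in which `L`
is algebraically closed. Also, `X → X / N_1` belongs to the class `Cls K` of the theorem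
`MP_dadaab_nt.TwistedWreath`, so it may be used as a step in the infinite towers of that theorem.
-/

set_option autoImplicit false

open Pool.Agent.TH444.TW (Cls)

namespace Pool.Agent.Results.MP_dadaab_nt.NilpotentResidual

/-- `K` is Hilbertian: for every monic irreducible polynomial `f` in `Y` over `K[t]`, separable
over `K(t)`, and every nonzero `g` in `K[t]` there is `a` in `K` with `g(a) ≠ 0` such that `f` stays
irreducible over `K` when `t` is replaced by `a`. -/
def Hilbertian (K : Type) [Field K] : Prop :=
  ∀ (f : Polynomial (Polynomial K)), f.Monic → Irreducible f →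
    (f.map (algebraMap (Polynomial K) (FractionRing (Polynomial K)))).Separable →
    ∀ g : Polynomial K, g ≠ 0 →
      ∃ a : K, g.eval a ≠ 0 ∧ Irreducible (f.map (Polynomial.evalRingHom a))

/-- The finite group `G` is the Galois group of a finite Galois extension of `K`. -/
def Realizable (K G : Type) [Field K] [Group G] : Prop :=
  ∃ (L : Type) (_ : Field L) (_ : Algebra K L) (_ : FiniteDimensional K L) (_ : IsGalois K L),
    Nonempty (G ≃* (L ≃ₐ[K] L))

/-- The finite Galois extension `L/K`, with `e₀ : X / M ≅ Gal(L/K)`, is contained in a finite Galois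
extension `F/K` with an isomorphism `γ : Gal(F/K) ≅ X` such that `σ` acts on `L` as `e₀` of the class
of `γ σ` modulo `M`. -/
def RealizedAbove (K L : Type) [Field K] [Field L] [Algebra K L] {X : Type} [Group X]
    (M : Subgroup X) [M.Normal] (e₀ : X ⧸ M ≃* (L ≃ₐ[K] L)) : Prop :=
  ∃ (F : Type) (_ : Field F) (_ : Algebra K F) (_ : Algebra L F) (_ : IsScalarTower K L F)
    (_ : FiniteDimensional K F) (_ : IsGalois K F) (γ : (F ≃ₐ[K] F) ≃* X),
    ∀ (σ : F ≃ₐ[K] F) (x : L),
      σ (algebraMap L F x) = algebraMap L F (e₀ (QuotientGroup.mk (γ σ)) x)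

/-- The same over `K(t)`: there is a finite Galois extension `F/K(t)` containing `L`, in which `L` is
algebraically closed, with an isomorphism `γ : Gal(F/K(t)) ≅ X` such that `σ` acts on `L` as `e₀` of
the class of `γ σ` modulo `M`. -/
def RegularlyRealizedAbove (K L : Type) [Field K] [Field L] [Algebra K L] {X : Type} [Group X]
    (M : Subgroup X) [M.Normal] (e₀ : X ⧸ M ≃* (L ≃ₐ[K] L)) : Prop :=
  ∃ (F : Type) (_ : Field F) (_ : Algebra (RatFunc K) F) (_ : Algebra L F)
    (_ : Algebra K F) (_ : IsScalarTower K (RatFunc K) F) (_ : IsScalarTower K L F)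
    (_ : FiniteDimensional (RatFunc K) F) (_ : IsGalois (RatFunc K) F)
    (γ : (F ≃ₐ[RatFunc K] F) ≃* X),
    (∀ (σ : F ≃ₐ[RatFunc K] F) (x : L),
      σ (algebraMap L F x) = algebraMap L F (e₀ (QuotientGroup.mk (γ σ)) x)) ∧
    ∀ y : F, IsAlgebraic L y → y ∈ Set.range (algebraMap L F)

/-- The normal subgroup `M` of the finite group `X` is harmless for the inverse Galois problem:
over every Hilbertian field each realization of `X / M` is contained in one of `X`, and `X` is
realizable if and only if `X / M` is; over `K(t)`, for every field `K`, each realization `L/K` of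
`X / M` is contained in a realization of `X` in which `L` is algebraically closed; and `X → X / M`
is in the class `Cls K`. -/
def Harmless {X : Type} [Group X] (M : Subgroup X) [M.Normal] : Prop :=
  (∀ (K : Type) [Field K], Hilbertian K →
    (∀ (L : Type) [Field L] [Algebra K L] [FiniteDimensional K L] [IsGalois K L]
      (e₀ : X ⧸ M ≃* (L ≃ₐ[K] L)), RealizedAbove K L M e₀) ∧
    (Realizable K X ↔ Realizable K (X ⧸ M))) ∧
  (∀ (K : Type) [Field K] (L : Type) [Field L] [Algebra K L] [FiniteDimensional K L]
    [IsGalois K L] (e₀ : X ⧸ M ≃* (L ≃ₐ[K] L)), RegularlyRealizedAbove K L M e₀) ∧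
  ∀ (K : Type) [Field K], Cls K (QuotientGroup.mk' M)

/-- The nilpotent residual of the subgroup `S`: the intersection of its lower central series
`S, [S, S], [[S, S], S], ...`. -/
def nilpotentResidual {X : Type} [Group X] (S : Subgroup X) : Subgroup X :=
  ⨅ n : ℕ, S.lowerCentralSeries n

/-- The iterated nilpotent residuals of `S`. -/
def residuals {X : Type} [Group X] (S : Subgroup X) : ℕ → Subgroup X
  | 0 => S
  | i + 1 => nilpotentResidual (residuals S i)

instance nilpotentResidual_normal {X : Type} [Group X] (S : Subgroup X) [S.Normal] :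
    (nilpotentResidual S).Normal :=
  Subgroup.normal_iInf_normal fun _ => inferInstance

lemma residuals_eq {X : Type} [Group X] (S : Subgroup X) :
    ∀ i, residuals S i = Pool.Agent.Q7.NR.ser S i
  | 0 => rfl
  | i + 1 => by
    change Pool.Agent.Q7.NR.nres (residuals S i) = Pool.Agent.Q7.NR.nres _
    rw [residuals_eq S i]

lemma realizable_of_quotient {K X : Type} [Field K] [Group X] (M : Subgroup X)
    [M.Normal] (h : Realizable K X) : Realizable K (X ⧸ M) := by
  obtain ⟨L, i1, i2, i3, i4, ⟨e⟩⟩ := h
  let H : Subgroup (L ≃ₐ[K] L) := M.map e.toMonoidHom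
  have hH : H.Normal := ‹M.Normal›.map e.toMonoidHom e.surjective
  refine ⟨IntermediateField.fixedField H, inferInstance, inferInstance, inferInstance,
    inferInstance, ⟨?_⟩⟩
  exact (QuotientGroup.congr M H e rfl).trans (IsGalois.normalAutEquivQuotient H)

lemma harmless_of_cls {X : Type} [Group X] (M : Subgroup X) [M.Normal]
    (h : ∀ (K : Type) [Field K], Cls K (QuotientGroup.mk' M)) : Harmless M := by
  refine ⟨fun K _ hK => ?_, fun K _ L _ _ _ _ e₀ => ?_, h⟩
  · have key : ∀ (L : Type) [Field L] [Algebra K L] [FiniteDimensional K L] [IsGalois K L]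
        (e₀ : X ⧸ M ≃* (L ≃ₐ[K] L)), RealizedAbove K L M e₀ := by
      intro L _ _ _ _ e₀
      exact Pool.Agent.Q7.NR.hilb_step hK (QuotientGroup.mk' M) (h K) L e₀
    refine ⟨fun L _ _ _ _ e₀ => key L e₀, realizable_of_quotient M, ?_⟩
    rintro ⟨L, i1, i2, i3, i4, ⟨e⟩⟩
    obtain ⟨F, j1, j2, j3, j4, j5, j6, γ, _⟩ := key L e
    exact ⟨F, j1, j2, j5, j6, ⟨γ.symm⟩⟩
  · exact Pool.Agent.Q7.NR.regular_step K L (QuotientGroup.mk' M) (h K) e₀

lemma harmless_residual {X : Type} [Group X] [Finite X] (N : Subgroup X) [N.Normal]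
    (h1 : ∃ k, residuals N k = ⊥)
    (h2 : ∀ i, 1 ≤ i → ⁅residuals N i, residuals N i⁆ ≤ residuals N (i + 1)) :
    Harmless (nilpotentResidual N) := by
  apply harmless_of_cls
  intro K _
  obtain ⟨k, hk⟩ := h1
  have h3 : Pool.Agent.Q7.NR.ser N (k + 1) = ⊥ := by
    rw [eq_bot_iff, ← hk, residuals_eq]
    exact Pool.Agent.Q7.NR.ser_antitone N (Nat.le_succ k)
  exact Pool.Agent.Q7.NR.cls_ser K k X N h3
    (fun i hi => by simpa only [residuals_eq] using h2 i hi) _ (QuotientGroup.mk' _)
    (QuotientGroup.mk'_surjective _) (QuotientGroup.ker_mk' _)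

lemma sylow_imp {X : Type} [Group X] [Finite X] (N : Subgroup X)
    (h : ∀ (p : ℕ) [Fact p.Prime] (P : Sylow p N), ∀ x ∈ P, ∀ y ∈ P, x * y = y * x) :
    ∀ (p : ℕ) (P : Subgroup X), p.Prime → P ≤ N → IsPGroup p P →
      ∀ x ∈ P, ∀ y ∈ P, x * y = y * x := by
  intro p P hp hPN hP x hx y hy
  have := Fact.mk hp
  have h1 : IsPGroup p (P.subgroupOf N) := hP.comap_subtype
  obtain ⟨Q, hQ⟩ := h1.exists_le_sylow
  exact congrArg Subtype.val (h p Q ⟨x, hPN hx⟩ (hQ hx) ⟨y, hPN hy⟩ (hQ hy))

end Pool.Agent.Results.MP_dadaab_nt.NilpotentResidual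

open Pool.Agent.Results.MP_dadaab_nt.NilpotentResidual in
theorem Pool.Agent.Results.MP_dadaab_nt.NilpotentResidual.result :
    (∀ (X : Type) [Group X] [Finite X] (N : Subgroup X) [N.Normal],
      (∃ k, residuals N k = ⊥) →
      (∀ i, 1 ≤ i → ⁅residuals N i, residuals N i⁆ ≤ residuals N (i + 1)) →
      Harmless (nilpotentResidual N)) ∧
    (∀ (X : Type) [Group X] [Finite X] (N : Subgroup X) [N.Normal],
      Group.IsSolvable N →
      (∀ (p : ℕ) [Fact p.Prime] (P : Sylow p N), ∀ x ∈ P, ∀ y ∈ P, x * y = y * x) →
      Harmless ⁅N, N⁆) ∧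
    (∀ (X : Type) [Group X] [Finite X] (N : Subgroup X) [N.Normal],
      (∀ x ∈ nilpotentResidual N, ∀ y ∈ nilpotentResidual N, x * y = y * x) →
      Harmless (nilpotentResidual N)) ∧
    Hilbertian ℚ := by
  refine ⟨fun X _ _ N _ h1 h2 => harmless_residual N h1 h2, ?_, ?_,
    Pool.Agent.H391R2.T4.hilb_rat⟩
  · intro X _ _ N _ hN hS
    have h0 := sylow_imp N hS
    have h3 := Pool.Agent.Q7.NR.ser_of_syl N h0
    have h1 : ∃ k, residuals N k = ⊥ := by
      obtain ⟨k, hk⟩ := hN.solvable
      refine ⟨k, ?_⟩
      rw [residuals_eq, h3, hk, Subgroup.map_bot]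
    have h2 : ∀ i, 1 ≤ i → ⁅residuals N i, residuals N i⁆ ≤ residuals N (i + 1) := by
      intro i _
      rw [residuals_eq, residuals_eq, h3, h3, derivedSeries_succ, Subgroup.map_commutator]
    have h4 := harmless_residual N h1 h2
    have h5 : nilpotentResidual N = ⁅N, N⁆ := Pool.Agent.Q7.NR.nres_of_syl N h0
    have key : ∀ (A B : Subgroup X) [A.Normal] [B.Normal], A = B → Harmless A → Harmless B := by
      intro A B _ _ hAB h
      subst hAB
      exact h
    exact key _ _ h5 h4
  · intro X _ _ N _ hN
    have h1 : ⁅nilpotentResidual N, nilpotentResidual N⁆ = ⊥ := by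
      rw [eq_bot_iff, Subgroup.commutator_le]
      intro x hx y hy
      rw [Subgroup.mem_bot, commutatorElement_eq_one_iff_mul_comm]
      exact hN x hx y hy
    have h2 : residuals N 2 = ⊥ := by
      rw [eq_bot_iff, ← h1]
      change nilpotentResidual (nilpotentResidual N) ≤ _
      have h3 : nilpotentResidual (nilpotentResidual N)
          ≤ (nilpotentResidual N).lowerCentralSeries 1 := iInf_le _ 1
      rwa [Subgroup.lowerCentralSeries_succ, Subgroup.lowerCentralSeries_zero] at h3
    refine harmless_residual N ⟨2, h2⟩ fun i hi => ?_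
    refine le_trans (Subgroup.commutator_mono (?_ : _ ≤ nilpotentResidual N)
      (?_ : _ ≤ nilpotentResidual N)) (h1.le.trans bot_le)
    all_goals
      rw [residuals_eq]
      exact Pool.Agent.Q7.NR.ser_antitone N hi
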