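import Mathlib
import Pool.Agent.Q5.NS.Gal
import Pool.Agent.H391R2.X4

/-!
# The inverse Galois problem is equivalent to: every finite group is a normal subgroup of a
# Galois group

For every finite group `G` there is a finite group `Γ` such that every Galois extension `L/K` (of
arbitrary fields) whose group has a normal subgroup isomorphic to `Γ` contains a Galois extension
`M/K` with group `G`. Consequently, over every field `K`, every finite group is a Galois group if and
only if every finite group is isomorphic to a NORMAL SUBGROUP of a Galois group. Over `ℚ` every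
finite group is a normal subgroup of a normal subgroup of a Galois group.

Outline: let `r ≥ 5` be a prime, `H = F_r[G] ⋊ G` and
`Γ = (⊕_v F_(ℓ v)[H / ⟨v⟩]) ⋊ H`, where `v` runs through `F_r[G]` and the `ℓ v` are distinct primes
`> |H|`. An automorphism `β` of `Γ` preserves the `ℓ v`-components and induces an endomorphism `β'`
of `H`; the traces of `h` and `β' h` on `F_(ℓ v)[H / ⟨v⟩]` are equal, so `β' v` has a fixed point on
`H / ⟨v⟩`, i.e. it is a translate of a multiple of `v`. So `β'` is on `F_r[G]` the product of a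
scalar and the translation by an element `θ β` of `G`, and `θ : Aut Γ → G` is a homomorphism which
extends `Γ → Inn Γ → G`. If `Γ` is normal in `X`, then `X → Aut Γ → G` is surjective.
-/

set_option autoImplicit false

namespace Pool.Agent.Results.MP_dadaab_nt.NormalSubgroups

universe u v

/-- `G` is isomorphic to the group of a Galois extension of `K`. -/
def Occurs (K : Type u) [Field K] (G : Type v) [Group G] : Prop :=
  ∃ (L : Type u) (_ : Field L) (_ : Algebra K L), IsGalois K L ∧ Nonempty (G ≃* (L ≃ₐ[K] L))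

/-- `G` is isomorphic to a normal subgroup of the group of a (possibly infinite) Galois extension
of `K`. -/
def OccursNormal (K : Type u) [Field K] (G : Type v) [Group G] : Prop :=
  ∃ (L : Type u) (_ : Field L) (_ : Algebra K L), IsGalois K L ∧
    ∃ N : Subgroup (L ≃ₐ[K] L), N.Normal ∧ Nonempty (G ≃* N)

/-- `G` is isomorphic to `Gal(L/M)` for some Galois extensions `L/K` and `M/K` (of finite or infinite
degree) with `M ⊆ L`. -/
def OccursAbove (K : Type u) [Field K] (G : Type v) [Group G] : Prop :=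
  ∃ (M L : Type u) (_ : Field M) (_ : Field L) (_ : Algebra K M) (_ : Algebra K L)
    (_ : Algebra M L) (_ : IsScalarTower K M L), IsGalois K M ∧ IsGalois K L ∧
    Nonempty (G ≃* (L ≃ₐ[M] L))

/-- `G` is isomorphic to the group of a Galois extension of `K` with the property `T`. -/
def OccursWith (K : Type u) [Field K] (T : (L : Type u) → [Field L] → [Algebra K L] → Prop)
    (G : Type v) [Group G] : Prop :=
  ∃ (L : Type u) (_ : Field L) (_ : Algebra K L), T L ∧ IsGalois K L ∧
    Nonempty (G ≃* (L ≃ₐ[K] L))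

/-- `G` is isomorphic to a normal subgroup of the group of a Galois extension of `K` with the
property `T`. -/
def OccursNormalWith (K : Type u) [Field K] (T : (L : Type u) → [Field L] → [Algebra K L] → Prop)
    (G : Type v) [Group G] : Prop :=
  ∃ (L : Type u) (_ : Field L) (_ : Algebra K L), T L ∧ IsGalois K L ∧
    ∃ N : Subgroup (L ≃ₐ[K] L), N.Normal ∧ Nonempty (G ≃* N)

/-- The property `T` of extensions of `K` is inherited by subextensions. -/
def Hereditary (K : Type u) [Field K] (T : (L : Type u) → [Field L] → [Algebra K L] → Prop) :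
    Prop :=
  ∀ (M L : Type u) [Field M] [Field L] [Algebra K M] [Algebra K L], (M →ₐ[K] L) → T L → T M

/-- The property `Q` holds for every finite group whose order is divisible by no element of the
finite set `P`; for `P = ∅` these are all finite groups. -/
def Every (P : Finset ℕ) (Q : (G : Type v) → [Group G] → Prop) : Prop :=
  ∀ (G : Type v) [Group G] [Finite G], (∀ p ∈ P, ¬ p ∣ Nat.card G) → Q G

/-- Every prime divisor of the order of `Γ` divides the order of `G` or is greater than `m`. -/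
def NewPrimesAbove (m : ℕ) (Γ G : Type v) : Prop :=
  ∀ p : ℕ, p.Prime → p ∣ Nat.card Γ → p ∣ Nat.card G ∨ m < p

/-- If the group of a Galois extension `L/K` of arbitrary fields has a normal subgroup `N`
isomorphic to `Γ`, then `L` contains a Galois extension `M` of `K` with group `G`, and every
element of `Gal(M/K)` is the restriction of an element of `N`. -/
def Forces (Γ : Type v) [Group Γ] (G : Type v) [Group G] : Prop :=
  ∀ (K L : Type u) [Field K] [Field L] [Algebra K L] [IsGalois K L]
    (N : Subgroup (L ≃ₐ[K] L)), N.Normal → Nonempty (Γ ≃* N) →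
    ∃ (M : Type u) (_ : Field M) (_ : Algebra K M) (i : M →ₐ[K] L), IsGalois K M ∧
      Nonempty (G ≃* (M ≃ₐ[K] M)) ∧ ∀ σ : M ≃ₐ[K] M, ∃ τ ∈ N, ∀ x : M, i (σ x) = τ (i x)

/-- `G` is isomorphic to a normal subgroup `A` of a normal subgroup `B` of the group of a Galois
extension of `K`. -/
def OccursSubnormal (K : Type u) [Field K] (G : Type v) [Group G] : Prop :=
  ∃ (L : Type u) (_ : Field L) (_ : Algebra K L), IsGalois K L ∧
    ∃ A B : Subgroup (L ≃ₐ[K] L), A ≤ B ∧ B.Normal ∧
      (∀ x ∈ B, ∀ y ∈ A, x * y * x⁻¹ ∈ A) ∧ Nonempty (G ≃* A)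

theorem above_of {K : Type u} [Field K] {G : Type v} [Group G] (h : Occurs K G) :
    OccursAbove K G := by
  obtain ⟨L, _, _, hL, ⟨e⟩⟩ := h
  exact ⟨K, L, _, _, _, _, _, inferInstance, inferInstance, hL, ⟨e⟩⟩

theorem normal_of {K : Type u} [Field K] {G : Type v} [Group G] (h : OccursAbove K G) :
    OccursNormal K G := by
  obtain ⟨M, L, _, _, _, _, _, _, hM, hL, ⟨e⟩⟩ := h
  let j : (L ≃ₐ[M] L) →* (L ≃ₐ[K] L) := AlgEquiv.restrictScalarsHom K
  have hj : Function.Injective j := AlgEquiv.restrictScalars_injective K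
  refine ⟨L, _, _, hL, j.range, ?_, ⟨e.trans (MonoidHom.ofInjective hj)⟩⟩
  refine ⟨?_⟩
  rintro _ ⟨τ, rfl⟩ σ
  have hn : ∀ (ρ : L ≃ₐ[K] L) (m : M), ∃ m' : M, ρ (algebraMap M L m) = algebraMap M L m' := by
    intro ρ m
    have h1 := (IsScalarTower.toAlgHom K M L).fieldRange
    have h2 := AlgHom.restrictNormal_commutes (ρ : L →ₐ[K] L) M m
    exact ⟨_, h2.symm⟩
  refine ⟨{ toRingEquiv := (σ * j τ * σ⁻¹ : L ≃ₐ[K] L).toRingEquiv, commutes' := fun m => ?_ }, ?_⟩
  · obtain ⟨m', hm'⟩ := hn σ⁻¹ m
    have h3 : (σ * j τ * σ⁻¹ : L ≃ₐ[K] L) (algebraMap M L m) = algebraMap M L m := by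
      rw [AlgEquiv.mul_apply, AlgEquiv.mul_apply, hm']
      have h4 : j τ (algebraMap M L m') = algebraMap M L m' := τ.commutes m'
      rw [h4, ← hm', ← AlgEquiv.mul_apply, mul_inv_cancel, AlgEquiv.one_apply]
    exact h3
  · ext x
    rfl

theorem cover (G : Type v) [Group G] [Finite G] (m : ℕ) :
    ∃ (Γ : Type v) (_ : Group Γ), Finite Γ ∧ NewPrimesAbove m Γ G ∧ Forces.{u, v} Γ G := by
  obtain ⟨Γ, gΓ, π, θ, hΓ, hπ, hθ, hp⟩ := Pool.Agent.Q5.NS.exists_cover G m
  refine ⟨Γ, gΓ, hΓ, hp, ?_⟩
  intro K L _ _ _ _ N hN ⟨e⟩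
  obtain ⟨M, hM, h1, h2⟩ := Pool.Agent.Q5.NS.exists_field π θ hπ hθ N e
  refine ⟨M, inferInstance, inferInstance, M.val, hM, h1, fun σ => ?_⟩
  obtain ⟨τ, hτ⟩ := h2 σ
  refine ⟨τ, τ.2, fun x => ?_⟩
  rw [← hτ]
  exact AlgEquiv.restrictNormal_commutes (τ : L ≃ₐ[K] L) M x

theorem occurs_of_normal (P : Finset ℕ) (K : Type u) [Field K] (hP : ∀ p ∈ P, p.Prime)
    (T : (L : Type u) → [Field L] → [Algebra K L] → Prop) (hT : Hereditary K T)
    (h : Every.{v} P (OccursNormalWith K T)) : Every.{v} P (OccursWith K T) := by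
  intro G _ _ hG
  obtain ⟨Γ, gΓ, hΓ, hp, hc⟩ := cover.{u, v} G (∑ p ∈ P, p)
  obtain ⟨L, _, _, hTL, hL, N, hN, ⟨e⟩⟩ := h Γ (by
    intro p hpP hd
    rcases hp p (hP p hpP) hd with h1 | h1
    · exact hG p hpP h1
    · have := Finset.single_le_sum (f := fun p : ℕ => p) (fun _ _ => Nat.zero_le _) hpP
      omega)
  obtain ⟨M, _, _, i, hM, ⟨f⟩, -⟩ := hc K L N hN ⟨e⟩
  exact ⟨M, inferInstance, inferInstance, hT M L i hTL, hM, ⟨f⟩⟩

theorem normal_of_occurs (P : Finset ℕ) (K : Type u) [Field K]
    (T : (L : Type u) → [Field L] → [Algebra K L] → Prop)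
    (h : Every.{v} P (OccursWith K T)) : Every.{v} P (OccursNormalWith K T) := by
  intro G _ _ hG
  obtain ⟨L, _, _, hTL, hL, ⟨e⟩⟩ := h G hG
  exact ⟨L, inferInstance, inferInstance, hTL, hL, ⊤, inferInstance,
    ⟨e.trans Subgroup.topEquiv.symm⟩⟩

/-- the base group of the wreath product and one factor of it -/
theorem subnormal_wr (G : Type) [Group G] (n : ℕ) (i : Fin n) :
    ∃ A B : Subgroup (Pool.Agent.H391R2.Wr G n), A ≤ B ∧ B.Normal ∧
      (∀ x ∈ B, ∀ y ∈ A, x * y * x⁻¹ ∈ A) ∧ Nonempty (G ≃* A) := by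
  classical
  let j : G →* Pool.Agent.H391R2.Wr G n := SemidirectProduct.inl.comp (MonoidHom.mulSingle (fun _ : Fin n => G) i)
  have hj : Function.Injective j := by
    intro a b h
    have h1 := congrFun (SemidirectProduct.inl_injective h) i
    simpa using h1
  refine ⟨j.range, (SemidirectProduct.rightHom : Pool.Agent.H391R2.Wr G n →* _).ker, ?_,
    inferInstance, ?_, ⟨MonoidHom.ofInjective hj⟩⟩
  · rintro _ ⟨g, rfl⟩
    rw [MonoidHom.mem_ker]
    exact SemidirectProduct.rightHom_inl _
  · rintro x hx _ ⟨g, rfl⟩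
    rw [← SemidirectProduct.range_inl_eq_ker_rightHom] at hx
    obtain ⟨f, rfl⟩ := hx
    refine ⟨f i * g * (f i)⁻¹, ?_⟩
    simp only [j, MonoidHom.comp_apply, MonoidHom.mulSingle_apply]
    rw [← map_inv, ← map_mul, ← map_mul]
    congr 1
    funext k
    by_cases hk : k = i
    · subst hk
      simp
    · simp [hk]

theorem subnormal_rat (G : Type) [Group G] [Finite G] : OccursSubnormal ℚ G := by
  obtain ⟨n₀, hn₀⟩ := Pool.Agent.H391R2.intermediate_realize G
  obtain ⟨L, h1, h2, h3, ⟨h4⟩⟩ := hn₀ (n₀ + 1) (by omega) ⊤ (fun _ _ => Subgroup.mem_top _)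
  obtain ⟨A, B, hAB, hB, hN, ⟨f⟩⟩ := subnormal_wr G (n₀ + 1) 0
  let e : Pool.Agent.H391R2.Wr G (n₀ + 1) ≃* (L ≃ₐ[ℚ] L) := Subgroup.topEquiv.symm.trans h4
  refine ⟨L, h1, h2, h3, A.map e.toMonoidHom, B.map e.toMonoidHom, Subgroup.map_mono hAB,
    hB.map _ e.surjective, ?_, ⟨f.trans (A.equivMapOfInjective e.toMonoidHom e.injective)⟩⟩
  rintro _ ⟨x, hx, rfl⟩ _ ⟨y, hy, rfl⟩
  exact ⟨x * y * x⁻¹, hN x hx y hy, by simp⟩

theorem result :
    -- (1) every finite group `G` has a finite cover `Γ` which forces `G`; the order of `Γ` is prime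
    -- to all primes `≤ m` which do not divide the order of `G`
    (∀ (G : Type v) [Group G] [Finite G] (m : ℕ),
      ∃ (Γ : Type v) (_ : Group Γ), Finite Γ ∧ NewPrimesAbove m Γ G ∧ Forces.{u, v} Γ G) ∧
    -- (2) over every field `K` the inverse Galois problem (`P = ∅`, or for the groups of order
    -- prime to given primes) is equivalent to the one for normal subgroups of Galois groups
    (∀ (K : Type u) [Field K] (P : Finset ℕ), (∀ p ∈ P, p.Prime) →
      (Every.{v} P (Occurs K) ↔ Every.{v} P (OccursNormal K)) ∧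
      (Every.{v} P (Occurs K) ↔ Every.{v} P (OccursAbove K))) ∧
    -- (3) the same for the Galois extensions of `K` with any property which is inherited by
    -- subextensions
    (∀ (K : Type u) [Field K] (P : Finset ℕ) (T : (L : Type u) → [Field L] → [Algebra K L] → Prop),
      (∀ p ∈ P, p.Prime) → Hereditary K T →
      (Every.{v} P (OccursWith K T) ↔ Every.{v} P (OccursNormalWith K T))) ∧
    -- (4) over `ℚ` every finite group is a normal subgroup of a normal subgroup of a Galois group
    (∀ (G : Type) [Group G] [Finite G], OccursSubnormal ℚ G) := by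
  refine ⟨fun G _ _ m => cover G m, fun K _ P hP => ?_, fun K _ P T hP hT =>
    ⟨normal_of_occurs P K T, occurs_of_normal P K hP T hT⟩, fun G _ _ => subnormal_rat G⟩
  have hn : Every.{v} P (OccursNormal K) → Every.{v} P (Occurs K) := by
    intro h G _ _ hG
    obtain ⟨L, i1, i2, -, hL, e⟩ := occurs_of_normal.{u, v} P K hP (fun _ _ _ => True)
      (fun _ _ _ _ _ _ _ _ => trivial) (fun G _ _ hG => by
        obtain ⟨L, i1, i2, hL, N, hN, e⟩ := h G hG
        exact ⟨L, i1, i2, trivial, hL, N, hN, e⟩) G hG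
    exact ⟨L, i1, i2, hL, e⟩
  exact ⟨⟨fun h G _ _ hG => normal_of (above_of (h G hG)), hn⟩,
    ⟨fun h G _ _ hG => above_of (h G hG), fun h => hn fun G _ _ hG => normal_of (h G hG)⟩⟩

end Pool.Agent.Results.MP_dadaab_nt.NormalSubgroups
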